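import Pool.Agent.Y246.OG.RadB

/-!
Existence of good circles for curves that do not extend.
-/

set_option autoImplicit false

namespace Pool.Agent.Y246.OG

open Filter Metric Set Topology Pool.Agent.W603.BP Pool.Agent.Y192.OG Pool.Agent.H159R3.NV
open Pool.Agent.W602.NC (tau tau_int le_sup sup_attained sph_norm)
open Pool.Agent.W602.TL (GoodAt sup_pos)
open Pool.Agent.W601.PH (log_growth2 quot_rational)

variable {N : ℕ}

/-- a function that is meromorphic at infinity is analytic near infinity -/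
theorem an_near_inf {R : ℂ → ℂ} (hR : MeromorphicAt (fun w => R w⁻¹) 0) :
    ∃ ρ : ℝ, 0 < ρ ∧ ∀ z : ℂ, ρ < ‖z‖ → AnalyticAt ℂ R z := by
  have h1 := hR.eventually_analyticAt
  rw [eventually_nhdsWithin_iff, Metric.eventually_nhds_iff] at h1
  obtain ⟨ε, hε, h2⟩ := h1
  refine ⟨ε⁻¹, inv_pos.mpr hε, fun z hz => ?_⟩
  have hz0 : z ≠ 0 := by
    intro h
    rw [h, norm_zero] at hz
    have := inv_pos.mpr hε
    linarith
  have h3 := h2 (y := z⁻¹) (by
    rw [dist_zero_right, norm_inv]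
    exact inv_lt_of_inv_lt₀ hε hz) (inv_ne_zero hz0)
  have h4 : AnalyticAt ℂ (fun w => (fun w => R w⁻¹) w⁻¹) z := h3.comp (analyticAt_inv hz0)
  simp only [inv_inv] at h4
  exact h4

namespace Dat

variable {c : Curve N} {F : c.Mr} (D : Dat c F)

/-- rational quotients give an extension of the curve -/
theorem ext_of_rat (h : ∀ j, ∃ R : ℂ → ℂ, MeromorphicAt (fun w => R w⁻¹) 0 ∧
      ∃ R0 : ℝ, ∀ z, R0 < ‖z‖ → D.v j z = R z * D.v 0 z) (j : Fin (N + 1)) :
    ∃ R : ℂ → ℂ, MeromorphicAt (fun w => R w⁻¹) 0 ∧ ∃ R0 : ℝ, ∀ z, R0 < ‖z‖ →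
      c.X j z = R z * c.X 0 z := by
  obtain ⟨R, hR, R0, hRe⟩ := h j.castSucc
  obtain ⟨ρ, hρ, hRan⟩ := an_near_inf hR
  have key : ∀ z : ℂ, max R0 ρ < ‖z‖ → D.G j.castSucc z = R z * D.G 0 z := by
    intro z hz
    have hz1 : R0 < ‖z‖ := lt_of_le_of_lt (le_max_left _ _) hz
    have hz2 : ρ < ‖z‖ := lt_of_le_of_lt (le_max_right _ _) hz
    have hcont : ContinuousAt (fun z => D.G j.castSucc z - R z * D.G 0 z) z :=
      (D.hG _).continuous.continuousAt.sub
        ((hRan z hz2).continuousAt.mul (D.hG 0).continuous.continuousAt)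
    have hev : ∀ᶠ w in 𝓝[≠] z, D.G j.castSucc w - R w * D.G 0 w = 0 := by
      have hopen : {w : ℂ | R0 < ‖w‖} ∈ 𝓝 z :=
        (isOpen_lt continuous_const continuous_norm).mem_nhds hz1
      filter_upwards [ev_ne (D.hG 0) (D.hG0 0) z, nhdsWithin_le_nhds hopen] with w hw1 hw2
      have h3 := hRe w hw2
      unfold v at h3
      have h00 : D.w 0 = D.e := by
        have : (0 : Fin (N + 1 + 1)) = (0 : Fin (N + 1)).castSucc := rfl
        rw [this, D.w_cast]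
      rw [h00, D.w_cast] at h3
      have h4 : D.G 0 w ^ D.e ≠ 0 := pow_ne_zero _ hw1
      have h5 : (D.G j.castSucc w - R w * D.G 0 w) * D.G 0 w ^ D.e = 0 := by
        linear_combination h3
      exact (mul_eq_zero.mp h5).resolve_right h4
    have h2 : D.G j.castSucc z - R z * D.G 0 z = 0 := by
      have t1 := hcont.tendsto.mono_left (nhdsWithin_le_nhds (s := {z}ᶜ))
      have t2 : Tendsto (fun w => D.G j.castSucc w - R w * D.G 0 w) (𝓝[≠] z) (𝓝 0) :=
        tendsto_const_nhds.congr' (by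
          filter_upwards [hev] with w hw
          exact hw.symm)
      exact tendsto_nhds_unique t1 t2
    exact sub_eq_zero.mp h2
  have h00 : (0 : Fin (N + 1 + 1)) = (0 : Fin (N + 1)).castSucc := rfl
  refine ⟨fun z => (D.H j.castSucc z / D.H 0 z) * R z, ?_, max (max R0 ρ) D.a, ?_⟩
  · exact ((D.mero _).fun_div (D.mero 0)).fun_mul hR
  · intro z hz
    have hz1 : max R0 ρ < ‖z‖ := lt_of_le_of_lt (le_max_left _ _) hz
    have hzE : z ∈ Ext D.a := lt_of_le_of_lt (le_max_right _ _) hz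
    rw [D.X_eq j hzE, D.X_eq 0 hzE, ← h00, key z hz1]
    have := (D.tame 0).ne z hzE
    field_simp

/-- circles on which the characteristic dominates the errors -/
theorem circles (hne : ¬ ∀ j, ∃ R : ℂ → ℂ, MeromorphicAt (fun w => R w⁻¹) 0 ∧ ∃ R0 : ℝ,
      ∀ z, R0 < ‖z‖ → c.X j z = R z * c.X 0 z) (n : ℕ) :
    ∃ s ε : ℝ, max (D.a + 3) n ≤ s ∧ 0 < ε ∧ ε ≤ 1 ∧ (∀ z, ‖z‖ = s → GoodAt D.v z ε) ∧
      n + n * Real.log (1 / ε) + n * Real.log s < tau D.v s := by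
  by_contra hcon
  push Not at hcon
  apply hne
  have hr0 := c.hr0
  have ha := D.ha
  have ha1 : (1 : ℝ) ≤ max (D.a + 3) n := (by linarith : (1 : ℝ) ≤ D.a + 3).trans (le_max_left _ _)
  obtain ⟨Λ, K1, K2, hB, hK2, hgr⟩ := log_growth2 D.v_diff D.v_zero ha1 (K := n)
    ⟨n, n, Nat.cast_nonneg n, Nat.cast_nonneg n, fun s ε h1 h2 h3 h4 => hcon s ε h1 h2 h3 h4⟩
  exact D.ext_of_rat fun j => quot_rational hB hK2 ha1 hgr j

/-- oscillation of the coordinates on good balls -/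
theorem osc_X : ∃ C : ℝ, 1 ≤ C ∧ ∀ (z : ℂ) (ε : ℝ), D.a + 2 ≤ ‖z‖ → ε ≤ 1 → GoodAt D.v z ε →
    0 < ε → ∀ y ∈ closedBall z ε,
    (∀ i j, ‖c.X j y / c.X i y‖ ≤ C * ‖c.X j z / c.X i z‖) ∧
      ‖c.val F y‖ ≤ C * ‖c.val F z‖ := by
  have h1 := fun j => (D.tame j).osc
  choose C0 hC0 ho using h1
  have hC00 : ∀ j, 0 ≤ C0 j := fun j => by linarith [hC0 j]
  set C1 : ℝ := 1 + ∑ j, C0 j with hC1
  have hsum : 0 ≤ ∑ j, C0 j := Finset.sum_nonneg fun j _ => hC00 j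
  have hC1j : ∀ j, C0 j ≤ C1 := by
    intro j
    have := Finset.single_le_sum (f := C0) (fun i _ => hC00 i) (Finset.mem_univ j)
    rw [hC1]
    linarith
  have hC11 : 1 ≤ C1 := by
    rw [hC1]
    linarith
  have hC10 : 0 < C1 := by linarith
  have he1 : (1 : ℝ) ≤ Real.exp 1 := Real.one_le_exp (by norm_num)
  set M : ℝ := C1 ^ 2 * Real.exp 1 with hM
  have hM1 : 1 ≤ M := one_le_mul_of_one_le_of_one_le (one_le_pow₀ hC11) he1
  refine ⟨M * ((C1 ^ (D.e + 2) * Real.exp 1) * M ^ (N * D.β)),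
    one_le_mul_of_one_le_of_one_le hM1 (one_le_mul_of_one_le_of_one_le
      (one_le_mul_of_one_le_of_one_le (one_le_pow₀ hC11) he1) (one_le_pow₀ hM1)), ?_⟩
  intro z ε hz hε hgood hε0 y hy
  have hyz : ‖y - z‖ ≤ 1 := by
    rw [mem_closedBall, dist_eq_norm] at hy
    linarith
  have hzE : z ∈ Ext D.a := by
    change D.a < ‖z‖
    linarith
  have hyE : y ∈ Ext D.a := by
    change D.a < ‖y‖
    have h2 : ‖z‖ ≤ ‖y‖ + ‖y - z‖ := by
      calc ‖z‖ = ‖y - (y - z)‖ := by congr 1; ring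
        _ ≤ _ := norm_sub_le _ _
    linarith
  have hzz : z ∈ closedBall z ε := mem_closedBall_self hε0.le
  have hvz : ∀ j, D.v j z ≠ 0 := fun j => hgood.1 j z hzz
  have hvy : ∀ j, D.v j y ≠ 0 := fun j => hgood.1 j y hy
  have hUz := D.mem_U hzE hvz
  have hUy := D.mem_U hyE hvy
  -- oscillation of the units
  have hH : ∀ j, ‖D.H j y‖ ≤ C1 * ‖D.H j z‖ ∧ ‖D.H j z‖ ≤ C1 * ‖D.H j y‖ := by
    intro j
    obtain ⟨h2, h3⟩ := ho j z y hz hyz
    exact ⟨h2.trans (mul_le_mul_of_nonneg_right (hC1j j) (norm_nonneg _)),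
      h3.trans (mul_le_mul_of_nonneg_right (hC1j j) (norm_nonneg _))⟩
  have hX : ∀ i j, ‖c.X j y / c.X i y‖ ≤ M * ‖c.X j z / c.X i z‖ := by
    intro i j
    have h2 := hgood.2 i.castSucc j.castSucc y hy
    have e1 : ∀ x, (∀ k, D.v k x ≠ 0) → D.v j.castSucc x / D.v i.castSucc x
        = D.G j.castSucc x / D.G i.castSucc x := by
      intro x hx
      unfold v
      rw [D.w_cast, D.w_cast]
      have h3 : D.G 0 x ^ D.e ≠ 0 := pow_ne_zero _ (D.G_ne hx 0)
      have h4 := D.G_ne hx i.castSucc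
      field_simp
    rw [e1 y hvy, e1 z hvz] at h2
    rw [D.X_eq j hyE, D.X_eq i hyE, D.X_eq j hzE, D.X_eq i hzE]
    have hj := (hH j.castSucc).1
    have hi := (hH i.castSucc).2
    have p1 : 0 < ‖D.H i.castSucc y‖ := norm_pos_iff.mpr ((D.tame _).ne y hyE)
    have p2 : 0 < ‖D.H i.castSucc z‖ := norm_pos_iff.mpr ((D.tame _).ne z hzE)
    have h5 : ‖D.H j.castSucc y‖ / ‖D.H i.castSucc y‖
        ≤ C1 ^ 2 * (‖D.H j.castSucc z‖ / ‖D.H i.castSucc z‖) := by
      rw [mul_div_assoc', div_le_div_iff₀ p1 p2]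
      calc ‖D.H j.castSucc y‖ * ‖D.H i.castSucc z‖
          ≤ (C1 * ‖D.H j.castSucc z‖) * (C1 * ‖D.H i.castSucc y‖) :=
            mul_le_mul hj hi p2.le (by positivity)
        _ = _ := by ring
    have e2 : ∀ x, ‖D.H j.castSucc x * D.G j.castSucc x / (D.H i.castSucc x * D.G i.castSucc x)‖
        = (‖D.H j.castSucc x‖ / ‖D.H i.castSucc x‖)
          * ‖D.G j.castSucc x / D.G i.castSucc x‖ := by
      intro x
      rw [norm_div, norm_mul, norm_mul, norm_div]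
      ring
    rw [e2 y, e2 z, hM]
    calc (‖D.H j.castSucc y‖ / ‖D.H i.castSucc y‖) * ‖D.G j.castSucc y / D.G i.castSucc y‖
        ≤ (C1 ^ 2 * (‖D.H j.castSucc z‖ / ‖D.H i.castSucc z‖))
          * (Real.exp 1 * ‖D.G j.castSucc z / D.G i.castSucc z‖) :=
          mul_le_mul h5 h2 (norm_nonneg _) (by positivity)
      _ = _ := by ring
  refine ⟨fun i j => (hX i j).trans (mul_le_mul_of_nonneg_right ?_ (norm_nonneg _)), ?_⟩
  · exact le_mul_of_one_le_right (by linarith) (one_le_mul_of_one_le_of_one_le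
      (one_le_mul_of_one_le_of_one_le (one_le_pow₀ hC11) he1) (one_le_pow₀ hM1))
  -- the function
  have hval : ∀ x, x ∈ c.U → c.val F x
      = (D.P x / c.X 0 x ^ (D.e + 1)) * ∏ i : Fin N, (c.X 0 x / c.X i.succ x) ^ D.β := by
    intro x hx
    rw [D.hPU x hx, ← D.hd, pow_add, pow_mul']
    have h2 := hx.2 0
    have h3 : ∏ i : Fin N, c.X i.succ x ^ D.β ≠ 0 :=
      Finset.prod_ne_zero_iff.mpr fun i _ => pow_ne_zero _ (hx.2 _)
    have e3 : ∏ i : Fin N, (c.X 0 x / c.X i.succ x) ^ D.β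
        = (c.X 0 x ^ D.β) ^ N / ∏ i : Fin N, c.X i.succ x ^ D.β := by
      rw [Finset.prod_congr rfl fun i _ => div_pow (c.X 0 x) (c.X i.succ x) D.β,
        Finset.prod_div_distrib, Finset.prod_const, Finset.card_univ, Fintype.card_fin]
    rw [e3]
    field_simp
  have hPq : ‖D.P y / c.X 0 y ^ (D.e + 1)‖
      ≤ (C1 ^ (D.e + 2) * Real.exp 1) * ‖D.P z / c.X 0 z ^ (D.e + 1)‖ := by
    have h2 := hgood.2 0 (Fin.last (N + 1)) y hy
    have h00 : (0 : Fin (N + 1 + 1)) = (0 : Fin (N + 1)).castSucc := rfl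
    have e1 : ∀ x, D.v (Fin.last (N + 1)) x / D.v 0 x
        = D.G (Fin.last (N + 1)) x / D.G 0 x ^ (D.e + 1) := by
      intro x
      unfold v
      rw [D.w_last, h00, D.w_cast, pow_zero, mul_one, pow_succ']
    rw [e1, e1] at h2
    have e4 : ∀ x, x ∈ Ext D.a → ‖D.P x / c.X 0 x ^ (D.e + 1)‖
        = (‖D.H (Fin.last (N + 1)) x‖ / ‖D.H 0 x‖ ^ (D.e + 1))
          * ‖D.G (Fin.last (N + 1)) x / D.G 0 x ^ (D.e + 1)‖ := by
      intro x hx
      rw [D.P_eq hx, D.X_eq 0 hx, ← h00, norm_div, norm_mul, norm_pow, norm_mul, norm_div, norm_pow,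
        mul_pow]
      ring
    rw [e4 y hyE, e4 z hzE]
    have hj := (hH (Fin.last (N + 1))).1
    have hi := (hH 0).2
    have p1 : 0 < ‖D.H 0 y‖ := norm_pos_iff.mpr ((D.tame _).ne y hyE)
    have p2 : 0 < ‖D.H 0 z‖ := norm_pos_iff.mpr ((D.tame _).ne z hzE)
    have h6 : ‖D.H 0 z‖ ^ (D.e + 1) ≤ C1 ^ (D.e + 1) * ‖D.H 0 y‖ ^ (D.e + 1) := by
      rw [← mul_pow]
      exact pow_le_pow_left₀ p2.le hi _
    have h5 : ‖D.H (Fin.last (N + 1)) y‖ / ‖D.H 0 y‖ ^ (D.e + 1)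
        ≤ C1 ^ (D.e + 2) * (‖D.H (Fin.last (N + 1)) z‖ / ‖D.H 0 z‖ ^ (D.e + 1)) := by
      rw [mul_div_assoc', div_le_div_iff₀ (by positivity) (by positivity)]
      calc ‖D.H (Fin.last (N + 1)) y‖ * ‖D.H 0 z‖ ^ (D.e + 1)
          ≤ (C1 * ‖D.H (Fin.last (N + 1)) z‖) * (C1 ^ (D.e + 1) * ‖D.H 0 y‖ ^ (D.e + 1)) :=
            mul_le_mul hj h6 (by positivity) (by positivity)
        _ = _ := by ring
    calc (‖D.H (Fin.last (N + 1)) y‖ / ‖D.H 0 y‖ ^ (D.e + 1))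
          * ‖D.G (Fin.last (N + 1)) y / D.G 0 y ^ (D.e + 1)‖
        ≤ (C1 ^ (D.e + 2) * (‖D.H (Fin.last (N + 1)) z‖ / ‖D.H 0 z‖ ^ (D.e + 1)))
          * (Real.exp 1 * ‖D.G (Fin.last (N + 1)) z / D.G 0 z ^ (D.e + 1)‖) :=
          mul_le_mul h5 h2 (norm_nonneg _) (by positivity)
      _ = _ := by ring
  have hprod : ‖∏ i : Fin N, (c.X 0 y / c.X i.succ y) ^ D.β‖
      ≤ M ^ (N * D.β) * ‖∏ i : Fin N, (c.X 0 z / c.X i.succ z) ^ D.β‖ := by
    rw [norm_prod, norm_prod]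
    have e5 : M ^ (N * D.β) = ∏ _i : Fin N, M ^ D.β := by
      rw [Finset.prod_const, Finset.card_univ, Fintype.card_fin, ← pow_mul, mul_comm]
    rw [e5, ← Finset.prod_mul_distrib]
    refine Finset.prod_le_prod (fun i _ => norm_nonneg _) fun i _ => ?_
    rw [norm_pow, norm_pow, ← mul_pow]
    exact pow_le_pow_left₀ (norm_nonneg _) (hX i.succ 0) _
  rw [hval y hUy, hval z hUz, norm_mul, norm_mul]
  calc ‖D.P y / c.X 0 y ^ (D.e + 1)‖ * ‖∏ i : Fin N, (c.X 0 y / c.X i.succ y) ^ D.β‖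
      ≤ ((C1 ^ (D.e + 2) * Real.exp 1) * ‖D.P z / c.X 0 z ^ (D.e + 1)‖)
        * (M ^ (N * D.β) * ‖∏ i : Fin N, (c.X 0 z / c.X i.succ z) ^ D.β‖) :=
        mul_le_mul hPq hprod (norm_nonneg _) (by positivity)
    _ = ((C1 ^ (D.e + 2) * Real.exp 1) * M ^ (N * D.β))
        * (‖D.P z / c.X 0 z ^ (D.e + 1)‖ * ‖∏ i : Fin N, (c.X 0 z / c.X i.succ z) ^ D.β‖) := by
        ring
    _ ≤ (M * ((C1 ^ (D.e + 2) * Real.exp 1) * M ^ (N * D.β)))
        * (‖D.P z / c.X 0 z ^ (D.e + 1)‖ * ‖∏ i : Fin N, (c.X 0 z / c.X i.succ z) ^ D.β‖) :=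
        mul_le_mul_of_nonneg_right (le_mul_of_one_le_left (by positivity) hM1) (by positivity)

end Dat

/-- existence of good circles -/
theorem t_rad : St_ord → St_cnt → St_jen → St_rad := by
  intro hord hcnt hjen N c f hf hne
  obtain ⟨D⟩ := dat_exists c f hf
  have hr0 := c.hr0
  have ha := D.ha
  have h1 := D.circles hne
  choose s ε hs hε hε1 hgood hlt using h1
  obtain ⟨C, hC, htau⟩ := D.tau_le hord hcnt hjen
  obtain ⟨M, hM, hosc⟩ := D.osc_X
  have hs3 : ∀ n, D.a + 3 ≤ s n := fun n => (le_max_left _ _).trans (hs n)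
  have hsn : ∀ n : ℕ, (n : ℝ) ≤ s n := fun n => (le_max_right _ _).trans (hs n)
  refine ⟨{ s := s, e := ε, hs := fun n => by linarith [hs3 n],
            lim := tendsto_atTop_mono hsn tendsto_natCast_atTop_atTop,
            he := fun n => ⟨hε n, hε1 n⟩, ne := ?_, osc := ⟨M, hM, ?_⟩, oscF := ⟨M, ?_⟩,
            small := ?_ }⟩
  · intro n z hz y hy
    have hyE : y ∈ Ext D.a := by
      change D.a < ‖y‖
      have h2 : ‖z‖ ≤ ‖y‖ + ‖y - z‖ := by
        calc ‖z‖ = ‖y - (y - z)‖ := by congr 1; ring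
          _ ≤ _ := norm_sub_le _ _
      have h3 := hy
      rw [mem_closedBall, dist_eq_norm] at h3
      linarith [hs3 n, hε1 n]
    exact D.mem_U hyE fun j => (hgood n z hz).1 j y hy
  · intro n z hz i j y hy
    exact ((hosc z (ε n) (by linarith [hs3 n]) (hε1 n) (hgood n z hz) (hε n) y hy).1 i j)
  · intro n z hz y hy
    exact ((hosc z (ε n) (by linarith [hs3 n]) (hε1 n) (hgood n z hz) (hε n) y hy).2)
  · intro δ hδ
    obtain ⟨n0, hn0⟩ := exists_nat_ge (C + (D.e + 1) / δ)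
    filter_upwards [eventually_ge_atTop n0] with n hn
    have hnn : C + (D.e + 1) / δ ≤ n := hn0.trans (by exact_mod_cast hn)
    have h2 := htau (s n) (by linarith [hs3 n])
      (fun z hz j => (hgood n z hz).1 j z (mem_closedBall_self (hε n).le))
    have h3 := hlt n
    have hls : 0 ≤ Real.log (s n) := Real.log_nonneg (by linarith [hs3 n])
    have hle : 0 ≤ Real.log (1 / ε n) := Real.log_nonneg (by rw [le_div_iff₀ (hε n)]; linarith [hε1 n])
    have he0 : (0 : ℝ) < D.e + 1 := by positivity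
    have hq : 0 < (D.e + 1) / δ := by positivity
    set x : ℝ := (D.e + 1) / δ with hx
    have hxδ : x * δ = D.e + 1 := by rw [hx]; field_simp
    -- x * (log s + log (1/ε)) ≤ (e+1) ch
    have h4 : x * (Real.log (s n) + Real.log (1 / ε n)) ≤ (D.e + 1) * c.ch (s n) := by
      have h5 : 0 ≤ (n - C - x) * (1 + Real.log (s n)) := mul_nonneg (by linarith) (by linarith)
      have h6 : 0 ≤ (n - x) * Real.log (1 / ε n) := mul_nonneg (by linarith) hle
      nlinarith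
    rw [← hxδ] at h4
    have h7 : Real.log (s n) + Real.log (1 / ε n) ≤ δ * c.ch (s n) := by
      rw [mul_assoc] at h4
      exact le_of_mul_le_mul_left h4 hq
    exact ⟨by linarith, by linarith⟩

end Pool.Agent.Y246.OG
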