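import Pool.Agent.Y246.OG.Form

/-!
Simultaneous factorisation of finitely many functions in the exterior of a disc.
-/

set_option autoImplicit false

namespace Pool.Agent.Y246.OG

open Filter Metric Set Topology Pool.Agent.W603.BP

theorem prod_ne {r0 : ℝ} (hr0 : 0 < r0) {ι : Type} (s : Finset ι) (f : ι → ℂ → ℂ)
    (hf : ∀ i ∈ s, AnalyticOnNhd ℂ (f i) (Ext r0)) (hne : ∀ i ∈ s, ∃ z ∈ Ext r0, f i z ≠ 0) :
    AnalyticOnNhd ℂ (fun z => ∏ i ∈ s, f i z) (Ext r0) ∧ ∃ z ∈ Ext r0, ∏ i ∈ s, f i z ≠ 0 := by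
  classical
  induction s using Finset.induction_on with
  | empty =>
    obtain ⟨z, hz⟩ := Ext_nonempty r0
    exact ⟨fun z _ => by simpa using analyticAt_const, z, hz, by simp⟩
  | insert a s ha ih =>
    obtain ⟨h1, h2⟩ := ih (fun i hi => hf i (Finset.mem_insert_of_mem hi))
      (fun i hi => hne i (Finset.mem_insert_of_mem hi))
    have h3 := hf a (Finset.mem_insert_self a s)
    have h4 := hne a (Finset.mem_insert_self a s)
    simp only [Finset.prod_insert ha]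
    refine ⟨fun z hz => (h3 z hz).fun_mul (h1 z hz), ?_⟩
    by_contra hcon
    push Not at hcon
    rcases an_eq_zero_or (Ext_open r0) (Ext_preconn hr0) h3 h1 hcon with h | h
    · obtain ⟨z, hz, hz2⟩ := h4
      exact hz2 (h z hz)
    · obtain ⟨z, hz, hz2⟩ := h2
      exact hz2 (h z hz)

theorem unit_mero {a : ℝ} (ha : 0 < a) (k : ℤ) {q : ℂ → ℂ}
    (hq : DifferentiableOn ℂ q (ball 0 a⁻¹)) :
    MeromorphicAt (fun w : ℂ => (w⁻¹) ^ k * Complex.exp (q (w⁻¹)⁻¹)) 0 := by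
  simp only [inv_inv]
  apply MeromorphicAt.fun_mul
  · exact ((MeromorphicAt.id 0).fun_inv).fun_zpow k
  · apply AnalyticAt.meromorphicAt
    exact (hq.analyticAt (isOpen_ball.mem_nhds (mem_ball_self (inv_pos.mpr ha)))).cexp

/-- simultaneous factorisation -/
theorem fact {ι : Type} [Fintype ι] {r0 : ℝ} (hr0 : 1 ≤ r0) (Y : ι → ℂ → ℂ)
    (hY : ∀ j, AnalyticOnNhd ℂ (Y j) (Ext r0)) (hne : ∀ j, ∃ z ∈ Ext r0, Y j z ≠ 0) :
    ∃ a : ℝ, r0 < a ∧ ∃ H G : ι → ℂ → ℂ, (∀ j, Tame a (H j)) ∧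
      (∀ j, MeromorphicAt (fun w => H j w⁻¹) 0) ∧ (∀ j, Differentiable ℂ (G j)) ∧
      (∀ j, G j 0 ≠ 0) ∧ ∀ j, ∀ z ∈ Ext a, Y j z = H j z * G j z := by
  have hr00 : 0 < r0 := by linarith
  obtain ⟨hP1, hP2⟩ := prod_ne hr00 Finset.univ Y (fun j _ => hY j) (fun j _ => hne j)
  obtain ⟨r1, r2, h01, h12, hfree⟩ := annulus hr00 hP1 hP2
  obtain ⟨a, h1a, ha2⟩ := exists_between h12
  have hbv := fun j => birkhoff (F := Y j) (by linarith : (0 : ℝ) ≤ r1) h1a ha2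
    ((hY j).differentiableOn.mono (Ext_mono h01.le)) (fun z h1 h2 =>
      Finset.prod_ne_zero_iff.mp (hfree z h1 h2) j (Finset.mem_univ j))
  choose k q G hq hG hG0 hvG using hbv
  refine ⟨a, by linarith, fun j z => z ^ k j * Complex.exp (q j z⁻¹), G,
    fun j => tame_of (by linarith) (k j) (hq j), fun j => unit_mero (by linarith) (k j) (hq j), hG,
    fun j => hG0 j 0 (by rw [norm_zero]; linarith), fun j z hz => hvG j z hz⟩

end Pool.Agent.Y246.OG
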