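import Pool.Agent.Y192.OG.StB
import Pool.Agent.W601.PH.Circ

/-!
The form attached to a Laurent polynomial along a curve, and its size.
-/

set_option autoImplicit false

namespace Pool.Agent.Y246.OG

open Filter Metric Set Topology Pool.Agent.W603.BP Pool.Agent.Y192.OG Pool.Agent.H159R3.NV
open Pool.Agent.W602.NC (le_sup sup_attained)

variable {N : ℕ} (c : Curve N)

/-- largest modulus of the coordinates -/
noncomputable def mx (z : ℂ) : ℝ := Pool.Agent.W602.NC.sup c.X z

theorem le_mx (i : Fin (N + 1)) (z : ℂ) : ‖c.X i z‖ ≤ mx c z := le_sup c.X z i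

theorem mx_nonneg (z : ℂ) : 0 ≤ mx c z := (norm_nonneg _).trans (le_mx c 0 z)

theorem zpow_sum {ι : Type} (s : Finset ι) {x : ℂ} (hx : x ≠ 0) (f : ι → ℤ) :
    x ^ (∑ i ∈ s, f i) = ∏ i ∈ s, x ^ f i := by
  classical
  induction s using Finset.induction_on with
  | empty => simp
  | insert a s ha ih => rw [Finset.sum_insert ha, Finset.prod_insert ha, zpow_add₀ hx, ih]

theorem form_of (f : AddMonoidAlgebra ℂ (Fin N → ℤ)) :
    ∃ k : ℕ, ∀ a b : ℕ, k ≤ a → k ≤ b → ∃ P : ℂ → ℂ, AnalyticOnNhd ℂ P (Ext c.r0) ∧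
      (∀ z ∈ c.U, P z = (c.X 0 z ^ a * ∏ i : Fin N, c.X i.succ z ^ b) * c.val (c.ev f) z) ∧
      ∃ C : ℝ, 0 ≤ C ∧ ∀ z ∈ Ext c.r0, ‖P z‖ ≤ C * mx c z ^ (a + N * b) := by
  induction f using AddMonoidAlgebra.induction_linear with
  | zero =>
    refine ⟨0, fun a b _ _ => ⟨fun _ => 0, fun z _ => analyticAt_const, ?_, 0, le_rfl, ?_⟩⟩
    · intro z hz
      have h1 : c.val (c.ev 0) z = 0 := by
        rw [map_zero]
        have := c.val_smul 0 (0 : c.Mr) z
        rw [zero_smul, zero_mul] at this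
        exact this
      rw [h1, mul_zero]
    · intro z _
      rw [norm_zero, zero_mul]
  | add f g hf hg =>
    obtain ⟨k1, h1⟩ := hf
    obtain ⟨k2, h2⟩ := hg
    refine ⟨max k1 k2, fun a b ha hb => ?_⟩
    obtain ⟨P1, a1, b1, C1, c1, d1⟩ := h1 a b ((le_max_left _ _).trans ha)
      ((le_max_left _ _).trans hb)
    obtain ⟨P2, a2, b2, C2, c2, d2⟩ := h2 a b ((le_max_right _ _).trans ha)
      ((le_max_right _ _).trans hb)
    refine ⟨fun z => P1 z + P2 z, fun z hz => (a1 z hz).fun_add (a2 z hz), ?_, C1 + C2,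
      add_nonneg c1 c2, ?_⟩
    · intro z hz
      change P1 z + P2 z = _
      rw [b1 z hz, b2 z hz, map_add, c.val_add, Pi.add_apply]
      ring
    · intro z hz
      refine (norm_add_le _ _).trans ?_
      rw [add_mul]
      exact add_le_add (d1 z hz) (d2 z hz)
  | single m x =>
    set k : ℕ := ∑ i, (m i).natAbs with hk
    have hki : ∀ i, (m i).natAbs ≤ k := fun i =>
      Finset.single_le_sum (f := fun i => (m i).natAbs) (fun i _ => Nat.zero_le _)
        (Finset.mem_univ i)
    have hks : |∑ i, m i| ≤ k := by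
      refine (Finset.abs_sum_le_sum_abs _ _).trans ?_
      rw [hk]
      push_cast
      exact le_rfl
    refine ⟨k, fun a b ha hb => ?_⟩
    set e0 : ℕ := ((a : ℤ) - ∑ i, m i).toNat with he0
    set e : Fin N → ℕ := fun i => ((b : ℤ) + m i).toNat with he
    have h0 : (e0 : ℤ) = a - ∑ i, m i := by
      rw [he0, Int.toNat_of_nonneg]
      have := (abs_le.mp hks).2
      omega
    have h1 : ∀ i, (e i : ℤ) = b + m i := by
      intro i
      rw [he]
      simp only
      rw [Int.toNat_of_nonneg]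
      have := hki i
      omega
    refine ⟨fun z => x * (c.X 0 z ^ e0 * ∏ i : Fin N, c.X i.succ z ^ e i), ?_, ?_, ‖x‖,
      norm_nonneg _, ?_⟩
    · intro z hz
      refine analyticAt_const.fun_mul (((c.an 0 z hz).fun_pow e0).fun_mul ?_)
      exact Finset.analyticAt_fun_prod _ fun i _ => (c.an i.succ z hz).fun_pow (e i)
    · intro z hz
      have hX0 := hz.2 0
      rw [c.ev_single, c.val_smul, c.val_mon m hz]
      have hmon : c.monf m z = c.X 0 z ^ (-∑ i, m i) * ∏ i, c.X i.succ z ^ m i := by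
        unfold Curve.monf Curve.xf
        rw [← Finset.sum_neg_distrib, zpow_sum _ hX0, ← Finset.prod_mul_distrib]
        refine Finset.prod_congr rfl fun i _ => ?_
        rw [div_zpow, zpow_neg]
        field_simp
      rw [hmon]
      have e1 : c.X 0 z ^ e0 = c.X 0 z ^ a * c.X 0 z ^ (-∑ i, m i) := by
        rw [← zpow_natCast, ← zpow_natCast, ← zpow_add₀ hX0, h0, sub_eq_add_neg]
      have e2 : ∏ i : Fin N, c.X i.succ z ^ e i
          = (∏ i : Fin N, c.X i.succ z ^ b) * ∏ i : Fin N, c.X i.succ z ^ m i := by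
        rw [← Finset.prod_mul_distrib]
        refine Finset.prod_congr rfl fun i _ => ?_
        rw [← zpow_natCast, ← zpow_natCast, ← zpow_add₀ (hz.2 i.succ), h1 i]
      change x * (c.X 0 z ^ e0 * ∏ i : Fin N, c.X i.succ z ^ e i) = _
      rw [e1, e2]
      ring
    · intro z _
      rw [norm_mul, norm_mul, norm_pow, norm_prod]
      apply mul_le_mul_of_nonneg_left _ (norm_nonneg x)
      have e3 : a + N * b = e0 + ∑ i, e i := by
        have : ((a + N * b : ℕ) : ℤ) = ((e0 + ∑ i, e i : ℕ) : ℤ) := by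
          push_cast
          rw [Finset.sum_congr rfl (fun i _ => h1 i), h0, Finset.sum_add_distrib]
          simp
        exact_mod_cast this
      rw [e3, pow_add, ← Finset.prod_pow_eq_pow_sum]
      apply mul_le_mul (pow_le_pow_left₀ (norm_nonneg _) (le_mx c 0 z) _) _
        (Finset.prod_nonneg fun i _ => norm_nonneg _) (pow_nonneg (mx_nonneg c z) _)
      refine Finset.prod_le_prod (fun i _ => norm_nonneg _) fun i _ => ?_
      rw [norm_pow]
      exact pow_le_pow_left₀ (norm_nonneg _) (le_mx c _ z) _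

theorem log_mx_le (z : ℂ) :
    Real.log (mx c z) ≤ Real.log ‖c.X 0 z‖ + ∑ i : Fin N, |c.lam z (Pi.single i 1)| := by
  have hlam : ∀ i : Fin N, c.lam z (Pi.single i 1)
      = Real.log ‖c.X i.succ z‖ - Real.log ‖c.X 0 z‖ := by
    intro i
    unfold Curve.lam
    rw [Finset.sum_eq_single i]
    · simp
    · intro j _ hj
      simp [Pi.single_eq_of_ne hj]
    · intro h
      exact absurd (Finset.mem_univ i) h
  obtain ⟨j, hj⟩ := sup_attained c.X z
  have hmx : mx c z = ‖c.X j z‖ := hj
  rw [hmx]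
  have hs : 0 ≤ ∑ i : Fin N, |c.lam z (Pi.single i 1)| :=
    Finset.sum_nonneg fun i _ => abs_nonneg _
  rcases Fin.eq_zero_or_eq_succ j with h | ⟨i, h⟩
  · rw [h]
    linarith
  · rw [h]
    have h1 : |c.lam z (Pi.single i 1)| ≤ ∑ i : Fin N, |c.lam z (Pi.single i 1)| :=
      Finset.single_le_sum (f := fun i => |c.lam z (Pi.single i 1)|) (fun i _ => abs_nonneg _)
        (Finset.mem_univ i)
    have h2 := le_abs_self (c.lam z (Pi.single i 1))
    have h3 := hlam i
    linarith

end Pool.Agent.Y246.OG
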