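import Pool.Agent.Y246.OG.Fac

/-!
Upper bound for the mean of the first coordinate.
-/

set_option autoImplicit false

namespace Pool.Agent.Y246.OG

open Filter Metric Set Topology Pool.Agent.W603.BP Pool.Agent.Y192.OG

variable {N : ℕ} (c : Curve N)

theorem cnt_sum (hcnt : St_cnt) {ι : Type} (s : Finset ι) (E : ι → ℂ → ℝ)
    (hE : ∀ i ∈ s, c.LocFin (E i)) (R : ℝ) :
    c.LocFin (fun z => ∑ i ∈ s, E i z) ∧
      c.cnt (fun z => ∑ i ∈ s, E i z) R = ∑ i ∈ s, c.cnt (E i) R := by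
  classical
  induction s using Finset.induction_on with
  | empty =>
    simp only [Finset.sum_empty]
    refine ⟨fun R => ?_, ?_⟩
    · simp
    · simp [Curve.cnt]
  | insert a s ha ih =>
    obtain ⟨h1, h2⟩ := ih (fun i hi => hE i (Finset.mem_insert_of_mem hi))
    have h3 := hE a (Finset.mem_insert_self a s)
    obtain ⟨h4, h5⟩ := (hcnt N c).1 (E a) (fun z => ∑ i ∈ s, E i z) h3 h1
    simp only [Finset.sum_insert ha]
    exact ⟨h4, by rw [h5 R, h2]⟩

theorem del_single (z : ℂ) (i : Fin N) : c.del z (Pi.single i 1) = c.oX i.succ z - c.oX 0 z := by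
  unfold Curve.del
  rw [Finset.sum_eq_single i]
  · simp
  · intro j _ hj
    simp [Pi.single_eq_of_ne hj]
  · intro h
    exact absurd (Finset.mem_univ i) h

theorem oX_nonneg (i : Fin (N + 1)) (z : ℂ) : 0 ≤ c.oX i z := Int.natCast_nonneg _

theorem oX_zero {i : Fin (N + 1)} {z : ℂ} (hz : z ∈ Ext c.r0) (h : c.X i z ≠ 0) :
    c.oX i z = 0 := by
  unfold Curve.oX
  rw [((c.an i z hz).analyticOrderAt_eq_zero).mpr h]
  rfl

theorem oX_le (z : ℂ) (hz : z ∈ Ext c.r0) :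
    c.oX 0 z ≤ ∑ i : Fin N, |c.del z (Pi.single i 1)| := by
  have hs : 0 ≤ ∑ i : Fin N, |c.del z (Pi.single i 1)| :=
    Finset.sum_nonneg fun i _ => abs_nonneg _
  by_cases h0 : c.X 0 z = 0
  · obtain ⟨j, hj⟩ := c.ncz z hz
    rcases Fin.eq_zero_or_eq_succ j with h | ⟨i, h⟩
    · rw [h] at hj
      exact absurd h0 hj
    · rw [h] at hj
      have h1 : |c.del z (Pi.single i 1)| ≤ ∑ i : Fin N, |c.del z (Pi.single i 1)| :=
        Finset.single_le_sum (f := fun i => |c.del z (Pi.single i 1)|) (fun i _ => abs_nonneg _)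
          (Finset.mem_univ i)
      rw [del_single, oX_zero c hz hj, zero_sub, abs_neg, abs_of_nonneg (oX_nonneg c 0 z)] at h1
      exact h1
  · rw [oX_zero c hz h0]
    exact hs

/-- the first coordinate as an element of the ring -/
noncomputable def x0 : c.Mr :=
  c.mr (c.X 0) (fun z hz => (c.an 0 z hz).meromorphicAt) (fun z hz => c.an 0 z hz.1)

theorem val_x0 {z : ℂ} (hz : z ∈ c.U) : c.val (x0 c) z = c.X 0 z := c.val_mr _ _ _ hz

theorem U_nonempty : c.U.Nonempty := by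
  obtain ⟨z, hz⟩ := Ext_nonempty c.r0
  obtain ⟨w, hw⟩ := (c.U_punct hz).exists
  exact ⟨w, hw⟩

theorem val_zero (z : ℂ) : c.val 0 z = 0 := by
  have := c.val_smul 0 (0 : c.Mr) z
  rw [zero_smul, zero_mul] at this
  exact this

theorem x0_ne : x0 c ≠ 0 := by
  intro h
  obtain ⟨z, hz⟩ := U_nonempty c
  have h1 := val_x0 c hz
  rw [h, val_zero] at h1
  exact hz.2 0 h1.symm

theorem ord_x0 (z : ℂ) (hz : z ∈ Ext c.r0) : (c.ord z (x0 c)).untop₀ = c.oX 0 z := by
  have h1 : c.ord z (x0 c) = meromorphicOrderAt (c.X 0) z :=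
    meromorphicOrderAt_congr (c.val_mr_ev _ _ _ hz)
  rw [h1, (c.an 0 z hz).meromorphicOrderAt_eq]
  unfold Curve.oX
  cases analyticOrderAt (c.X 0) z with
  | top => rfl
  | coe n => rfl

/-- the mean of the first coordinate and of the coordinates of the torus -/
theorem avg_X0 (hord : St_ord) (hcnt : St_cnt) (hjen : St_jen) :
    ∃ C : ℝ, 0 ≤ C ∧ ∀ R : ℝ, c.r0 + 2 ≤ R → (∀ z : ℂ, ‖z‖ = R → z ∈ c.U) →
      Real.circleAverage (fun z => Real.log ‖c.X 0 z‖) 0 R
        + ∑ i : Fin N, Real.circleAverage (fun z => |c.lam z (Pi.single i 1)|) 0 R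
      ≤ c.ch R + C * (1 + Real.log R) := by
  obtain ⟨C, hC⟩ := hjen N c (x0 c) (x0_ne c)
  have hr0 := c.hr0
  refine ⟨|C|, abs_nonneg _, fun R hR hU => ?_⟩
  have h1 := (abs_le.mp (hC R hR)).2
  have hR0 : 0 < R := by linarith
  have h2 : Real.circleAverage (fun z => Real.log ‖c.val (x0 c) z‖) 0 R
      = Real.circleAverage (fun z => Real.log ‖c.X 0 z‖) 0 R := by
    apply Real.circleAverage_congr_sphere
    intro z hz
    rw [mem_sphere, dist_zero_right, abs_of_pos hR0] at hz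
    change Real.log ‖c.val (x0 c) z‖ = Real.log ‖c.X 0 z‖
    rw [val_x0 c (hU z hz)]
  have hlf : ∀ i ∈ (Finset.univ : Finset (Fin N)),
      c.LocFin (fun z => ((|c.del z (Pi.single i 1)| : ℤ) : ℝ)) := by
    intro i _
    refine (hcnt N c).2.2.2 (fun z => ((c.del z (Pi.single i 1) : ℤ) : ℝ)) _
      ((hord N c).2.2.2.2.2.2.2 _) (fun z _ => ?_)
    rw [Int.cast_abs, abs_abs]
  obtain ⟨h3, h4⟩ := cnt_sum c hcnt Finset.univ
    (fun i z => ((|c.del z (Pi.single i 1)| : ℤ) : ℝ)) hlf R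
  have h5 : c.cnt (fun z => ((c.ord z (x0 c)).untop₀ : ℤ)) R
      ≤ c.cnt (fun z => ∑ i : Fin N, ((|c.del z (Pi.single i 1)| : ℤ) : ℝ)) R := by
    refine (hcnt N c).2.2.1 _ _ ((hord N c).2.2.2.2.2.1 _ (x0_ne c)) h3 (fun z hz => ?_) R
    have hz' : z ∈ Ext c.r0 := by
      change c.r0 < ‖z‖
      linarith
    rw [ord_x0 c z hz']
    have := oX_le c z hz'
    exact_mod_cast this
  have h6 : c.ch R = ∑ i : Fin N, Real.circleAverage (fun z => |c.lam z (Pi.single i 1)|) 0 R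
      + ∑ i : Fin N, c.cnt (fun z => ((|c.del z (Pi.single i 1)| : ℤ) : ℝ)) R := by
    unfold Curve.ch Curve.ht
    rw [Finset.sum_add_distrib]
  have h7 : 0 ≤ 1 + Real.log R := by
    have := Real.log_nonneg (by linarith : 1 ≤ R)
    linarith
  have h8 : C * (1 + Real.log R) ≤ |C| * (1 + Real.log R) :=
    mul_le_mul_of_nonneg_right (le_abs_self C) h7
  rw [h2] at h1
  linarith

end Pool.Agent.Y246.OG
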