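import Pool.Agent.Y246.OG.RadA

/-!
Entire functions attached to a curve and a Laurent polynomial; upper bound for their means.
-/

set_option autoImplicit false

namespace Pool.Agent.Y246.OG

open Filter Metric Set Topology Pool.Agent.W603.BP Pool.Agent.Y192.OG Pool.Agent.H159R3.NV
open Pool.Agent.W602.NC (tau tau_int le_sup sup_attained sph_norm)
open Pool.Agent.W602.TL (GoodAt sup_pos)

variable {N : ℕ}

/-- the coordinates of the curve together with one more function -/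
noncomputable def yy (c : Curve N) (P : ℂ → ℂ) : Fin (N + 1 + 1) → ℂ → ℂ :=
  Fin.snoc (α := fun _ => ℂ → ℂ) c.X P

theorem yy_cast (c : Curve N) (P : ℂ → ℂ) (j : Fin (N + 1)) : yy c P j.castSucc = c.X j := by
  unfold yy
  rw [Fin.snoc_castSucc]

theorem yy_last (c : Curve N) (P : ℂ → ℂ) : yy c P (Fin.last (N + 1)) = P := by
  unfold yy
  rw [Fin.snoc_last]

/-- the data used for the construction of good circles -/
structure Dat (c : Curve N) (F : c.Mr) where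
  e : ℕ
  α : ℕ
  β : ℕ
  hd : α + N * β = e + 1
  P : ℂ → ℂ
  hPU : ∀ z ∈ c.U, P z = (c.X 0 z ^ α * ∏ i : Fin N, c.X i.succ z ^ β) * c.val F z
  K : ℝ
  hK : 1 ≤ K
  hPK : ∀ z ∈ Ext c.r0, ‖P z‖ ≤ K * mx c z ^ (e + 1)
  a : ℝ
  ha : c.r0 < a
  H : Fin (N + 1 + 1) → ℂ → ℂ
  G : Fin (N + 1 + 1) → ℂ → ℂ
  tame : ∀ j, Tame a (H j)
  mero : ∀ j, MeromorphicAt (fun w => H j w⁻¹) 0
  hG : ∀ j, Differentiable ℂ (G j)
  hG0 : ∀ j, G j 0 ≠ 0
  hY : ∀ j, ∀ z ∈ Ext a, yy c P j z = H j z * G j z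

theorem dat_exists (c : Curve N) (f : AddMonoidAlgebra ℂ (Fin N → ℤ)) (hf : c.ev f ≠ 0) :
    Nonempty (Dat c (c.ev f)) := by
  obtain ⟨k, hk⟩ := form_of c f
  obtain ⟨P, hP, hPU, C, hC, hPC⟩ := hk (k + 1) k (Nat.le_succ k) le_rfl
  have hPne : ∃ z ∈ Ext c.r0, P z ≠ 0 := by
    by_contra hcon
    push Not at hcon
    apply hf
    apply c.val_inj
    intro z hz
    rw [val_zero]
    have h1 := hPU z hz
    rw [hcon z hz.1] at h1
    rcases mul_eq_zero.mp h1.symm with h | h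
    · exfalso
      rcases mul_eq_zero.mp h with h | h
      · exact pow_ne_zero _ (hz.2 0) h
      · obtain ⟨i, _, hi⟩ := Finset.prod_eq_zero_iff.mp h
        exact pow_ne_zero _ (hz.2 _) hi
    · exact h
  obtain ⟨a, ha, H, G, h1, h2, h3, h4, h5⟩ := fact c.hr0 (yy c P) (by
    intro j
    refine Fin.lastCases ?_ (fun i => ?_) j
    · rw [yy_last]
      exact hP
    · rw [yy_cast]
      exact c.an i) (by
    intro j
    refine Fin.lastCases ?_ (fun i => ?_) j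
    · rw [yy_last]
      exact hPne
    · rw [yy_cast]
      exact c.nz i)
  refine ⟨⟨k + N * k, k + 1, k, by ring, P, hPU, C + 1, by linarith, ?_, a, ha, H, G, h1, h2, h3,
    h4, h5⟩⟩
  intro z hz
  have e1 : k + 1 + N * k = k + N * k + 1 := by ring
  rw [e1] at hPC
  refine (hPC z hz).trans ?_
  exact mul_le_mul_of_nonneg_right (by linarith) (pow_nonneg (mx_nonneg c z) _)

namespace Dat

variable {c : Curve N} {F : c.Mr} (D : Dat c F)

/-- exponents -/
def w (j : Fin (N + 1 + 1)) : ℕ := if j = Fin.last (N + 1) then 0 else D.e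

theorem w_last : D.w (Fin.last (N + 1)) = 0 := if_pos rfl

theorem w_cast (j : Fin (N + 1)) : D.w j.castSucc = D.e := if_neg (Fin.castSucc_lt_last j).ne

/-- the entire functions -/
noncomputable def v (j : Fin (N + 1 + 1)) (z : ℂ) : ℂ := D.G j z * D.G 0 z ^ D.w j

theorem v_diff (j : Fin (N + 1 + 1)) : Differentiable ℂ (D.v j) :=
  (D.hG j).fun_mul ((D.hG 0).fun_pow _)

theorem v_zero (j : Fin (N + 1 + 1)) : D.v j 0 ≠ 0 :=
  mul_ne_zero (D.hG0 j) (pow_ne_zero _ (D.hG0 0))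

theorem G_ne {z : ℂ} (h : ∀ j, D.v j z ≠ 0) (j : Fin (N + 1 + 1)) : D.G j z ≠ 0 :=
  left_ne_zero_of_mul (h j)

theorem X_eq (j : Fin (N + 1)) {z : ℂ} (hz : z ∈ Ext D.a) :
    c.X j z = D.H j.castSucc z * D.G j.castSucc z := by
  rw [← D.hY _ z hz, yy_cast]

theorem P_eq {z : ℂ} (hz : z ∈ Ext D.a) :
    D.P z = D.H (Fin.last (N + 1)) z * D.G (Fin.last (N + 1)) z := by
  rw [← D.hY _ z hz, yy_last]

theorem mem_U {z : ℂ} (hz : z ∈ Ext D.a) (h : ∀ j, D.v j z ≠ 0) : z ∈ c.U := by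
  refine ⟨Ext_mono D.ha.le hz, fun j => ?_⟩
  rw [D.X_eq j hz]
  exact mul_ne_zero ((D.tame _).ne z hz) (D.G_ne h _)

/-- the logarithms of the entire functions -/
theorem log_G_le : ∃ B : ℝ, 0 ≤ B ∧ ∀ j, ∀ z : ℂ, D.a + 1 ≤ ‖z‖ → 1 ≤ ‖z‖ → D.G j z ≠ 0 →
    Real.log ‖D.G j z‖ ≤ B * (1 + Real.log ‖z‖) + Real.log ‖yy c D.P j z‖ := by
  have h1 := fun j => (D.tame j).bd
  choose C hC κ hb using h1
  have hn : ∀ j, 0 ≤ Real.log (C j) + κ j := fun j => by
    have := Real.log_nonneg (hC j)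
    positivity
  refine ⟨∑ j, (Real.log (C j) + κ j), Finset.sum_nonneg fun j _ => hn j, ?_⟩
  intro j z hz hz1 hG
  have hzE : z ∈ Ext D.a := by
    change D.a < ‖z‖
    linarith
  have hz0 : 0 < ‖z‖ := by linarith
  have hl : 0 ≤ Real.log ‖z‖ := Real.log_nonneg hz1
  obtain ⟨_, h3⟩ := hb j z hz
  have hHne := (D.tame j).ne z hzE
  have hHp : 0 < ‖D.H j z‖ := norm_pos_iff.mpr hHne
  have hGp : 0 < ‖D.G j z‖ := norm_pos_iff.mpr hG
  have hCp : 0 < C j := by linarith [hC j]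
  rw [D.hY j z hzE, norm_mul, Real.log_mul hHp.ne' hGp.ne']
  have h4 : 0 ≤ Real.log (C j) + κ j * Real.log ‖z‖ + Real.log ‖D.H j z‖ := by
    have h5 := Real.log_nonneg h3
    rw [Real.log_mul (by positivity) hHp.ne', Real.log_mul hCp.ne' (by positivity),
      Real.log_pow] at h5
    exact h5
  have h6 : Real.log (C j) + κ j ≤ ∑ j, (Real.log (C j) + κ j) :=
    Finset.single_le_sum (f := fun j => Real.log (C j) + (κ j : ℝ)) (fun i _ => hn i)
      (Finset.mem_univ j)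
  have h7 : (Real.log (C j) + κ j) * (1 + Real.log ‖z‖)
      ≤ (∑ j, (Real.log (C j) + κ j)) * (1 + Real.log ‖z‖) :=
    mul_le_mul_of_nonneg_right h6 (by linarith)
  have h8 : 0 ≤ Real.log (C j) * Real.log ‖z‖ := mul_nonneg (Real.log_nonneg (hC j)) hl
  have h9 : (0 : ℝ) ≤ κ j := Nat.cast_nonneg _
  nlinarith

theorem log_v_le : ∃ B : ℝ, 0 ≤ B ∧ ∀ z : ℂ, D.a + 1 ≤ ‖z‖ → 1 ≤ ‖z‖ → (∀ j, D.v j z ≠ 0) →
    Real.log (Pool.Agent.W602.NC.sup D.v z) ≤ B * (1 + Real.log ‖z‖)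
      + (D.e + 1) * (Real.log ‖c.X 0 z‖ + ∑ i : Fin N, |c.lam z (Pi.single i 1)|) := by
  obtain ⟨B, hB, hGB⟩ := D.log_G_le
  have hlK := Real.log_nonneg D.hK
  refine ⟨(D.e + 1) * B + Real.log D.K, by positivity, ?_⟩
  intro z hz hz1 hv
  have hzE : z ∈ Ext D.a := by
    change D.a < ‖z‖
    linarith
  have hU := D.mem_U hzE hv
  have hl : 0 ≤ Real.log ‖z‖ := Real.log_nonneg hz1
  have hmx := log_mx_le c z
  have hX0 : 0 < ‖c.X 0 z‖ := norm_pos_iff.mpr (hU.2 0)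
  have hmp : 0 < mx c z := hX0.trans_le (le_mx c 0 z)
  have hXl : ∀ j, Real.log ‖c.X j z‖ ≤ Real.log (mx c z) := fun j =>
    Real.log_le_log (norm_pos_iff.mpr (hU.2 j)) (le_mx c j z)
  have hG0 := hGB 0 z hz hz1 (D.G_ne hv 0)
  have hY0 : yy c D.P 0 z = c.X 0 z := by
    have : (0 : Fin (N + 1 + 1)) = (0 : Fin (N + 1)).castSucc := rfl
    rw [this, yy_cast]
  rw [hY0] at hG0
  have he : (0 : ℝ) ≤ D.e := Nat.cast_nonneg _
  obtain ⟨j, hj⟩ := sup_attained D.v z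
  rw [hj]
  have hGj := hGB j z hz hz1 (D.G_ne hv j)
  have e1 : Real.log ‖D.v j z‖ = Real.log ‖D.G j z‖ + D.w j * Real.log ‖D.G 0 z‖ := by
    unfold v
    rw [norm_mul, norm_pow, Real.log_mul (norm_ne_zero_iff.mpr (D.G_ne hv j))
      (pow_ne_zero _ (norm_ne_zero_iff.mpr (D.G_ne hv 0))), Real.log_pow]
  rw [e1]
  have hBl : 0 ≤ B * (1 + Real.log ‖z‖) := by positivity
  have hKl : Real.log D.K ≤ Real.log D.K * (1 + Real.log ‖z‖) :=
    le_mul_of_one_le_right hlK (by linarith)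
  have hmain : Real.log ‖yy c D.P j z‖ + D.w j * Real.log ‖c.X 0 z‖
      ≤ Real.log D.K + (D.e + 1) * Real.log (mx c z) := by
    refine Fin.lastCases (motive := fun j => D.v j z ≠ 0 →
      Real.log ‖yy c D.P j z‖ + D.w j * Real.log ‖c.X 0 z‖
      ≤ Real.log D.K + (D.e + 1) * Real.log (mx c z)) ?_ (fun i => ?_) j (hv j)
    · intro hvl
      rw [yy_last, D.w_last]
      have hPne : D.P z ≠ 0 := by
        rw [D.P_eq hzE]
        exact mul_ne_zero ((D.tame _).ne z hzE) (left_ne_zero_of_mul hvl)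
      have h1 := Real.log_le_log (norm_pos_iff.mpr hPne) (D.hPK z hU.1)
      rw [Real.log_mul (by linarith [D.hK]) (by positivity), Real.log_pow] at h1
      push_cast at h1 ⊢
      linarith
    · intro _
      rw [yy_cast, D.w_cast]
      have h1 := hXl i
      have h2 := mul_le_mul_of_nonneg_left (hXl 0) he
      linarith
  have hw : (D.w j : ℝ) ≤ D.e := by
    unfold w
    split_ifs
    · simp
    · exact le_rfl
  have hw0 : (0 : ℝ) ≤ D.w j := Nat.cast_nonneg _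
  have h3 : (D.w j : ℝ) * Real.log ‖D.G 0 z‖
      ≤ D.w j * (B * (1 + Real.log ‖z‖)) + D.w j * Real.log ‖c.X 0 z‖ := by
    rw [← mul_add]
    exact mul_le_mul_of_nonneg_left hG0 hw0
  have h4 : (D.w j : ℝ) * (B * (1 + Real.log ‖z‖)) ≤ D.e * (B * (1 + Real.log ‖z‖)) :=
    mul_le_mul_of_nonneg_right hw hBl
  have h5 : (D.e + 1) * Real.log (mx c z)
      ≤ (D.e + 1) * (Real.log ‖c.X 0 z‖ + ∑ i : Fin N, |c.lam z (Pi.single i 1)|) :=
    mul_le_mul_of_nonneg_left hmx (by linarith)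
  have e2 : ((D.e + 1) * B + Real.log D.K) * (1 + Real.log ‖z‖)
      = B * (1 + Real.log ‖z‖) + D.e * (B * (1 + Real.log ‖z‖))
        + Real.log D.K * (1 + Real.log ‖z‖) := by ring
  rw [e2]
  linarith

theorem cont_log {R : ℝ} (hR : 0 < R) (hU : ∀ z : ℂ, ‖z‖ = R → z ∈ c.U) (i : Fin (N + 1)) :
    ContinuousOn (fun z => Real.log ‖c.X i z‖) (sphere 0 |R|) := by
  have hs : ∀ z ∈ sphere (0 : ℂ) |R|, z ∈ c.U := fun z hz => hU z (sph_norm hR hz)
  apply ContinuousOn.log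
  · exact ((c.an i).continuousOn.mono fun z hz => (hs z hz).1).norm
  · intro z hz
    exact norm_ne_zero_iff.mpr ((hs z hz).2 i)

theorem cont_lam {R : ℝ} (hR : 0 < R) (hU : ∀ z : ℂ, ‖z‖ = R → z ∈ c.U) (m : Fin N → ℤ) :
    ContinuousOn (fun z => c.lam z m) (sphere 0 |R|) := by
  unfold Curve.lam
  apply continuousOn_finsetSum
  intro i _
  exact continuousOn_const.mul ((cont_log hR hU i.succ).sub (cont_log hR hU 0))

theorem tau_le (hord : St_ord) (hcnt : St_cnt) (hjen : St_jen) :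
    ∃ C : ℝ, 0 ≤ C ∧ ∀ s : ℝ, D.a + 2 ≤ s → (∀ z : ℂ, ‖z‖ = s → ∀ j, D.v j z ≠ 0) →
      tau D.v s ≤ (D.e + 1) * c.ch s + C * (1 + Real.log s) := by
  obtain ⟨B, hB, hvB⟩ := D.log_v_le
  obtain ⟨C, hC, hXC⟩ := avg_X0 c hord hcnt hjen
  have hr0 := c.hr0
  have ha := D.ha
  refine ⟨B + (D.e + 1) * C, by positivity, fun s hs hv => ?_⟩
  have hs0 : 0 < s := by linarith
  have hE : ∀ z : ℂ, ‖z‖ = s → z ∈ Ext D.a := fun z hz => by
    change D.a < ‖z‖
    linarith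
  have hU : ∀ z : ℂ, ‖z‖ = s → z ∈ c.U := fun z hz => D.mem_U (hE z hz) (hv z hz)
  have i1 : CircleIntegrable (fun z => Real.log ‖c.X 0 z‖) 0 s :=
    (cont_log hs0 hU 0).circleIntegrable'
  have i2 : ∀ i : Fin N, CircleIntegrable (fun z => |c.lam z (Pi.single i 1)|) 0 s := fun i =>
    ((cont_lam hs0 hU _).abs).circleIntegrable'
  have i3 : CircleIntegrable (fun z => ∑ i : Fin N, |c.lam z (Pi.single i 1)|) 0 s :=
    CircleIntegrable.fun_sum _ fun i _ => i2 i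
  have i4 : CircleIntegrable (fun z => Real.log ‖c.X 0 z‖
      + ∑ i : Fin N, |c.lam z (Pi.single i 1)|) 0 s := i1.add i3
  have i5 : CircleIntegrable (fun z => ((D.e : ℝ) + 1) * (Real.log ‖c.X 0 z‖
      + ∑ i : Fin N, |c.lam z (Pi.single i 1)|)) 0 s := i4.const_fun_smul (a := (D.e : ℝ) + 1)
  have i6 : CircleIntegrable (fun z => B * (1 + Real.log s) + ((D.e : ℝ) + 1)
      * (Real.log ‖c.X 0 z‖ + ∑ i : Fin N, |c.lam z (Pi.single i 1)|)) 0 s :=
    (circleIntegrable_const _ _ _).add i5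
  have h1 : tau D.v s ≤ Real.circleAverage (fun z => B * (1 + Real.log s) + ((D.e : ℝ) + 1)
      * (Real.log ‖c.X 0 z‖ + ∑ i : Fin N, |c.lam z (Pi.single i 1)|)) 0 s := by
    apply Real.circleAverage_mono
      (tau_int D.v_diff hs0 fun z hz => ⟨0, hv z hz 0⟩) i6
    intro z hz
    have hz' := sph_norm hs0 hz
    have h2 := hvB z (by linarith) (by linarith) (hv z hz')
    rw [hz'] at h2
    exact h2
  have e1 : Real.circleAverage (fun z => B * (1 + Real.log s) + ((D.e : ℝ) + 1)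
      * (Real.log ‖c.X 0 z‖ + ∑ i : Fin N, |c.lam z (Pi.single i 1)|)) 0 s
      = B * (1 + Real.log s) + ((D.e : ℝ) + 1)
        * (Real.circleAverage (fun z => Real.log ‖c.X 0 z‖) 0 s
        + ∑ i : Fin N, Real.circleAverage (fun z => |c.lam z (Pi.single i 1)|) 0 s) := by
    rw [Real.circleAverage_fun_add (circleIntegrable_const _ _ _) i5, Real.circleAverage_const]
    have e3 := Real.circleAverage_fun_smul (a := (D.e : ℝ) + 1)
      (f := fun z => Real.log ‖c.X 0 z‖ + ∑ i : Fin N, |c.lam z (Pi.single i 1)|)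
      (c := (0 : ℂ)) (R := s)
    simp only [smul_eq_mul] at e3
    rw [e3, Real.circleAverage_fun_add i1 i3, Real.circleAverage_fun_sum fun i _ => i2 i]
  rw [e1] at h1
  have h3 := hXC s (by linarith) hU
  have h4 : ((D.e : ℝ) + 1) * (Real.circleAverage (fun z => Real.log ‖c.X 0 z‖) 0 s
        + ∑ i : Fin N, Real.circleAverage (fun z => |c.lam z (Pi.single i 1)|) 0 s)
      ≤ (D.e + 1) * (c.ch s + C * (1 + Real.log s)) :=
    mul_le_mul_of_nonneg_left h3 (by positivity)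
  have e5 : (D.e + 1) * c.ch s + (B + (D.e + 1) * C) * (1 + Real.log s)
      = B * (1 + Real.log s) + (D.e + 1) * (c.ch s + C * (1 + Real.log s)) := by ring
  rw [e5]
  linarith

end Dat

end Pool.Agent.Y246.OG
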